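import Mathlib

/-!
# MP_0cd084_nt: the normal order of the logarithm of the number of sum = product sequences

Definitions. `N k` is the number of multisets of `k` positive integers whose product equals their
sum. Theorem: for almost all `k` the number `log (N k)` has the exact order of magnitude
`Z k = √(log k) * log log log k / log log k`.
-/

set_option autoImplicit false

open Finset Real

namespace Pool.Agent.H84.NSP

/-- The multisets of `k` positive integers whose product equals their sum. -/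
def SumProduct (k : ℕ) : Set (Multiset ℕ) :=
  {s : Multiset ℕ | Multiset.card s = k ∧ (∀ a ∈ s, 0 < a) ∧ s.prod = s.sum}

/-- The number of sum = product sequences of size `k`. -/
noncomputable def N (k : ℕ) : ℕ := (SumProduct k).ncard

/-- `√(log x) * log log log x / log log x` -/
noncomputable def Z (x : ℝ) : ℝ := √(log x) * log (log (log x)) / log (log x)

/-- the sum of the `t - 1` -/
def sg (A : Multiset ℕ) : ℕ := (A.map (fun t => t - 1)).sum

/-- one over the product -/
noncomputable def iv (A : Multiset ℕ) : ℝ := 1 / (A.prod : ℝ)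

/-- sum of `1 / p` over the primes in `(a, b]` -/
noncomputable def PS (a b : ℕ) : ℝ := ∑ p ∈ (Ioc a b).filter Nat.Prime, (1 : ℝ) / p

/-! ## Part A: the variance -/

/-- no prime factor `≤ z` -/
def rough (z n : ℕ) : Prop := ∀ p : ℕ, p.Prime → p ∣ n → z < p

open Classical in
/-- the `b` in `[Y, 2 Y)` such that `D b - 1` has no prime factor `≤ z` -/
noncomputable def BB (z Y D : ℕ) : Finset ℕ :=
  (Ico Y (2 * Y)).filter (fun b => rough z (D * b - 1))

/-- the number of representations -/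
noncomputable def RR (PP : Finset (ℕ × ℕ)) (z Y K : ℕ) : ℕ :=
  ∑ P ∈ PP, ((BB z Y P.1).filter (fun b => P.1 * b - 1 ∣ K + P.2 + b - 1)).card

/-- the mean number of representations -/
noncomputable def mu (PP : Finset (ℕ × ℕ)) (z Y : ℕ) : ℝ :=
  ∑ P ∈ PP, ∑ b ∈ BB z Y P.1, (1 : ℝ) / ((P.1 * b - 1 : ℕ) : ℝ)

/-- admissible pairs (product, sum of `t - 1`) of size at most `R` -/
def good (R : ℕ) (PP : Finset (ℕ × ℕ)) : Prop := ∀ P ∈ PP, 2 ≤ P.1 ∧ P.1 ≤ R ∧ P.2 < P.1

/-- every pair is realised by a multiset of integers `≥ 2` -/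
def realized (PP : Finset (ℕ × ℕ)) : Prop :=
  ∀ P ∈ PP, ∃ A : Multiset ℕ, (∀ t ∈ A, 2 ≤ t) ∧ A.prod = P.1 ∧ sg A = P.2

open Classical in
/-- the correlation of two pairs -/
noncomputable def SG (z Y : ℕ) (P Q : ℕ × ℕ) : ℝ :=
  ∑ b ∈ BB z Y P.1, ∑ c ∈ BB z Y Q.1,
    if 1 < Nat.gcd (P.1 * b - 1) (Q.1 * c - 1) ∧
      ((Nat.gcd (P.1 * b - 1) (Q.1 * c - 1) : ℕ) : ℤ) ∣
        ((P.2 + b : ℕ) : ℤ) - ((Q.2 + c : ℕ) : ℤ) then
      (Nat.gcd (P.1 * b - 1) (Q.1 * c - 1) : ℝ) /
        (((P.1 * b - 1 : ℕ) : ℝ) * ((Q.1 * c - 1 : ℕ) : ℝ))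
    else 0

open Classical in
/-- sum of `1 / g` over the divisors `g > 1` without prime factor `≤ z` -/
noncomputable def GF (z n : ℕ) : ℝ := ∑ g ∈ n.divisors.filter (fun g => 1 < g ∧ rough z g), (1 : ℝ) / g

/-! ## Part B: the pairs -/

/-- squarefree numbers `≤ X` with at most `m` prime factors -/
noncomputable def UU (X m : ℕ) : Finset ℕ :=
  (Icc 1 X).filter (fun u => Squarefree u ∧ u.primeFactors.card ≤ m)

/-- the primes in `(e ^ u, e ^ (u + h)]` -/
noncomputable def WI (u h : ℝ) : Finset ℕ := (Ioc ⌊exp u⌋₊ ⌊exp (u + h)⌋₊).filter Nat.Prime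

/-! ## Part E: the upper bound -/

/-- number of prime factors `> w`, with multiplicity -/
def Om (w n : ℕ) : ℕ := (n.primeFactorsList.filter (fun p => w < p)).length

/-- the elements `≤ T` -/
def lo (T : ℕ) (A : Multiset ℕ) : Multiset ℕ := A.filter (fun t => t ≤ T)

/-- the elements `> T` -/
def hi (T : ℕ) (A : Multiset ℕ) : Multiset ℕ := A.filter (fun t => T < t)

/-- the bound for the multisets of large parts -/
noncomputable def BH (T X : ℕ) (δ : ℝ) : ℝ := (X : ℝ) ^ δ * exp (2 * ((T : ℝ) ^ (-δ) / δ))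

/-- the bound for the multisets of smooth parts -/
noncomputable def BS (w : ℕ) : ℝ := exp (2 * exp (2 * PS 0 w))

/-- the bound for the multisets of the other parts -/
noncomputable def BR (w T n J : ℕ) (y v ρ : ℝ) : ℝ :=
  (1 / y) ^ n * exp (2 * y * (1 + log T)) +
    (1 / ρ) ^ J * (1 / v) ^ n * exp (2 * v * exp (2 * (PS 0 w + ρ * PS w T)))

end Pool.Agent.H84.NSP
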