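import Pool.Agent.H84.NSP.Defs

/-!
# MP_0cd084_nt, normal order of `log (N k)`: targets of the board nsp_modules
-/

set_option autoImplicit false

open Finset Real

namespace Pool.Agent.H84.NSP

/-! ## Part A: the variance -/

/-- CNT. Integers of an interval in one residue class. -/
def T_CNT : Prop := ∀ q N₀ H s : ℕ, 0 < q →
  (H : ℝ) / q - 1 ≤ (((Ico N₀ (N₀ + H)).filter (fun K => q ∣ K + s)).card : ℝ) ∧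
  (((Ico N₀ (N₀ + H)).filter (fun K => q ∣ K + s)).card : ℝ) ≤ H / q + 1

/-- CN2. Two residue classes. -/
def T_CN2 : Prop := ∀ q q' N₀ H s s' : ℕ, 0 < q → 0 < q' →
  (((Nat.gcd q q' : ℕ) : ℤ) ∣ (s : ℤ) - (s' : ℤ) →
    (((Ico N₀ (N₀ + H)).filter (fun K => q ∣ K + s ∧ q' ∣ K + s')).card : ℝ) ≤
      H * (Nat.gcd q q' / ((q : ℝ) * q')) + 1) ∧
  (¬ ((Nat.gcd q q' : ℕ) : ℤ) ∣ (s : ℤ) - (s' : ℤ) →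
    (Ico N₀ (N₀ + H)).filter (fun K => q ∣ K + s ∧ q' ∣ K + s') = ∅)

/-- VAR. The variance of the number of representations. -/
def T_VAR : Prop := ∀ (R : ℕ) (PP : Finset (ℕ × ℕ)) (z Y N₀ H : ℕ), good R PP → 1 ≤ Y →
  ∑ K ∈ Ico N₀ (N₀ + H), ((RR PP z Y K : ℝ) - mu PP z Y) ^ 2 ≤
    H * (∑ P ∈ PP, ∑ Q ∈ PP, SG z Y P Q) + 3 * (∑ P ∈ PP, ((BB z Y P.1).card : ℝ)) ^ 2

/-- OFF. The correlation of two different pairs. -/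
def T_OFF : Prop := ∀ (R z Y : ℕ) (P Q : ℕ × ℕ), 2 ≤ P.1 → P.1 ≤ R → P.2 < P.1 →
  2 ≤ Q.1 → Q.1 ≤ R → Q.2 < Q.1 → P ≠ Q → 4 * R ^ 3 ≤ Y →
    ∃ n : ℕ, 0 < n ∧ n ≤ 2 * R ^ 3 ∧ SG z Y P Q ≤ 16 / ((P.1 : ℝ) * Q.1) * GF z n

/-- DIA. The correlation of a pair with itself. -/
def T_DIA : Prop := ∀ (z Y : ℕ) (P : ℕ × ℕ), 2 ≤ P.1 → 1 ≤ Y →
  SG z Y P P ≤ 18 * (1 + log Y) / P.1

/-- GFB. The sum of `1 / g` over the rough divisors `g > 1`. -/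
def T_GFB : Prop := ∀ z n : ℕ, 0 < n → 0 < z → 2 * Nat.log 2 n ≤ z →
  GF z n ≤ 4 * Nat.log 2 n / z

/-- EXC. Few `K` have few representations. -/
def T_EXC : Prop := ∀ (R : ℕ) (PP : Finset (ℕ × ℕ)) (z Y N₀ H : ℕ) (η : ℝ), good R PP → 0 < η →
  (∀ D : ℕ, 2 ≤ D → D ≤ R → η * Y ≤ ((BB z Y D).card : ℝ)) → 2 ≤ R → 4 * R ^ 3 ≤ Y → 0 < z →
  2 * Nat.log 2 (2 * R ^ 3) ≤ z → PP.Nonempty →
    (((Ico N₀ (N₀ + H)).filter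
      (fun K => (RR PP z Y K : ℝ) ≤ η * (∑ P ∈ PP, (1 : ℝ) / P.1) / 4)).card : ℝ) ≤
    H * (1024 * Nat.log 2 (2 * R ^ 3) / (η ^ 2 * z) +
      288 * (1 + log Y) / (η ^ 2 * ∑ P ∈ PP, (1 : ℝ) / P.1)) +
      48 * ((R : ℝ) ^ 2 * Y) ^ 2 / (η ^ 2 * (∑ P ∈ PP, (1 : ℝ) / P.1) ^ 2)

/-! ## Part B: many pairs -/

/-- SQF. Squarefree numbers with few prime factors. -/
def T_SQF : Prop := ∀ X m : ℕ, 3 ≤ X → 4 * (1 + log X) ≤ 2 ^ m →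
  log X / 4 ≤ ∑ u ∈ UU X m, (1 : ℝ) / u

/-- WIN. Primes in logarithmic windows. -/
def T_WIN : Prop := ∃ h₀ : ℝ, 1 ≤ h₀ ∧ ∀ h u : ℝ, h₀ ≤ h → 0 ≤ u →
  h / (2 * (u + h)) ≤ ∑ p ∈ WI u h, (1 : ℝ) / p

/-- KAP. The number of factorisations. -/
def T_KAP : Prop := ∀ (X m r : ℕ) (u : Fin r → ℕ), (∀ i, u i ∈ UU X m) →
  ((Fintype.piFinset (fun _ : Fin r => UU X m)).filter
    (fun v => ∏ i, v i = ∏ i, u i)).card ≤ (r * m + 1) ^ (m * r)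

/-- LIN. A linear equation. -/
def T_LIN : Prop := ∀ (r : ℕ) (Q : Fin r → Finset ℕ) (c : Fin r → ℤ) (j : Fin r) (E : ℝ),
  c j ≠ 0 → 0 < E → (∀ i, ∀ p ∈ Q i, 0 < p) → (∀ p ∈ Q j, E ≤ (p : ℝ)) →
    ∑ p ∈ (Fintype.piFinset Q).filter (fun p => ∑ i, c i * (p i : ℤ) = 0), ∏ i, (1 : ℝ) / p i ≤
      1 / E * ∏ i ∈ univ.erase j, ∑ p ∈ Q i, (1 : ℝ) / p

/-- PAB. Many pairs, with parameters. -/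
def T_PAB : Prop := ∀ (r X m B : ℕ) (Q : Fin r → Finset ℕ) (E θ : ℝ), 1 ≤ r → 1 ≤ X →
  (∀ i, ∀ p ∈ Q i, p.Prime ∧ X < p ∧ E ≤ (p : ℝ) ∧ p ≤ B) →
  (∀ i j, i ≠ j → Disjoint (Q i) (Q j)) → 0 < θ → 0 < E →
  (∀ i, θ ≤ ∑ p ∈ Q i, (1 : ℝ) / p) → (((r * m + 1) ^ (m * r) : ℕ) : ℝ) ≤ θ * E →
    ∃ PP : Finset (ℕ × ℕ), good ((B * X) ^ r) PP ∧ realized PP ∧
      (∏ i : Fin r, ((∑ p ∈ Q i, (1 : ℝ) / p) * ∑ u ∈ UU X m, (1 : ℝ) / u)) / 2 ≤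
        ∑ P ∈ PP, (1 : ℝ) / P.1

/-- PAI. Many pairs. -/
def T_PAI : Prop := ∃ r₀ : ℕ, ∀ r : ℕ, r₀ ≤ r → ∃ PP : Finset (ℕ × ℕ),
  good ⌊exp (60 * r ^ 2 * log r ^ 2)⌋₊ PP ∧ realized PP ∧
    exp (r * log (log r)) ≤ ∑ P ∈ PP, (1 : ℝ) / P.1

/-! ## Part C: the sieve -/

/-- SV. Rough values of `D b - 1`. -/
def T_SV : Prop := ∃ C : ℝ, 1 ≤ C ∧ ∀ z Y D : ℕ, 3 ≤ z → 1 ≤ D →
  exp (C * log z * (1 + log (log z))) ≤ (Y : ℝ) →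
    1 / (C * log z ^ 2) * Y ≤ ((BB z Y D).card : ℝ)

/-! ## Part D: the lower bound -/

/-- SGP. -/
def T_SGP : Prop := ∀ A : Multiset ℕ, (∀ t ∈ A, 1 ≤ t) → sg A + 1 ≤ A.prod

/-- NST. The structure of the sum = product sequences. -/
def T_NST : Prop := ∀ k : ℕ, 2 ≤ k →
  (∃ S : Finset (Multiset ℕ), S.card = N k ∧
    ∀ A ∈ S, (∀ t ∈ A, 2 ≤ t) ∧ A.prod ≤ 2 * k ∧ A.prod = k + sg A) ∧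
  (∀ S : Finset (Multiset ℕ), (∀ A ∈ S, (∀ t ∈ A, 2 ≤ t) ∧ A.prod = k + sg A) → S.card ≤ N k)

/-- INJ. Representations give sequences. -/
def T_INJ : Prop := ∀ (R : ℕ) (PP : Finset (ℕ × ℕ)) (z Y K : ℕ), good R PP → realized PP →
  R < Y → 4 * R * Y ^ 2 ≤ K → RR PP z Y K ≤ N (K + 1)

/-- LWA. The lower bound in terms of the number `r` of parts. -/
def T_LWA : Prop := ∃ r₀ : ℕ, ∀ r : ℕ, r₀ ≤ r → ∀ H N₀ : ℕ,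
  exp (800 * r ^ 2 * log r ^ 2) ≤ (H : ℝ) → H ≤ N₀ →
    (((Ico N₀ (N₀ + H)).filter (fun k => (N k : ℝ) < exp (r * log (log r) / 2))).card : ℝ) ≤
      H * exp (-(r * log (log r) / 4))

/-- LOW. The lower bound. -/
def T_LOW : Prop := ∃ c H₀ : ℝ, 0 < c ∧ ∀ H N₀ : ℕ, H₀ ≤ H → H ≤ N₀ →
  (((Ico N₀ (N₀ + H)).filter (fun k => (N k : ℝ) < exp (c * Z H))).card : ℝ) ≤
    H * exp (-(c * Z H))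

/-! ## Part E: the upper bound -/

/-- MER. Mertens, upper bound. -/
def T_MER : Prop := ∃ C : ℝ, 0 ≤ C ∧ ∀ n : ℕ, 3 ≤ n → PS 0 n ≤ log (log n) + C

/-- MGF. The generating function of the multisets. -/
def T_MGF : Prop := ∀ (S : Finset ℕ) (f : ℕ → ℝ), (∀ t ∈ S, 0 ≤ f t ∧ f t ≤ 1 / 2) →
  ∀ M : Finset (Multiset ℕ), (∀ A ∈ M, ∀ t ∈ A, t ∈ S) →
    ∑ A ∈ M, (A.map f).prod ≤ exp (2 * ∑ t ∈ S, f t)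

/-- OMA. Additivity. -/
def T_OMA : Prop := (∀ w m n : ℕ, m ≠ 0 → n ≠ 0 → Om w (m * n) = Om w m + Om w n) ∧
  ∀ (w : ℕ) (A : Multiset ℕ), (∀ t ∈ A, t ≠ 0) → Om w A.prod = (A.map (Om w)).sum

/-- EUL. Euler product, upper bound. -/
def T_EUL : Prop := ∀ (X w : ℕ) (ρ : ℝ), 0 ≤ ρ → 2 * ρ ≤ w + 1 →
  ∑ D ∈ Icc 1 X, ρ ^ Om w D / D ≤ exp (2 * (PS 0 w + ρ * PS w X))

/-- TL. Multisets of large parts. -/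
def T_TL : Prop := ∀ (T X : ℕ) (δ : ℝ), 1 ≤ T → 1 ≤ X → 0 < δ → ∀ M : Finset (Multiset ℕ),
  (∀ A ∈ M, (∀ t ∈ A, T < t) ∧ A.prod ≤ X) → ∑ A ∈ M, iv A ≤ BH T X δ

/-- ES. Multisets of smooth parts. -/
def T_ES : Prop := ∀ (w X : ℕ) (M : Finset (Multiset ℕ)),
  (∀ A ∈ M, ∀ t ∈ A, 2 ≤ t ∧ t ≤ X ∧ Om w t = 0) → ∑ A ∈ M, iv A ≤ BS w

/-- ER. Multisets of the other parts. -/
def T_ER : Prop := ∀ (w T n J : ℕ) (y v ρ : ℝ), 1 ≤ T → 0 < y → y ≤ 1 → 1 ≤ v → 2 * v ≤ w →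
  0 < ρ → ρ ≤ 1 → ∀ M : Finset (Multiset ℕ),
  (∀ A ∈ M, (∀ t ∈ A, 2 ≤ t ∧ t ≤ T ∧ 1 ≤ Om w t) ∧ Om w A.prod ≤ J) →
    ∑ A ∈ M, iv A ≤ BR w T n J y v ρ

/-- GSM. The number of multisets whose small parts have few large prime factors. -/
def T_GSM : Prop := ∀ (w T X n J : ℕ) (y v ρ δ : ℝ), 1 ≤ T → 1 ≤ X → 0 < y → y ≤ 1 → 1 ≤ v →
  2 * v ≤ w → 0 < ρ → ρ ≤ 1 → 0 < δ → ∀ M : Finset (Multiset ℕ),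
  (∀ A ∈ M, (∀ t ∈ A, 2 ≤ t) ∧ A.prod ≤ X ∧ Om w (lo T A).prod ≤ J) →
    (M.card : ℝ) ≤ X * BH T X δ * BS w * BR w T n J y v ρ

/-- BAD. The number of `k` with a sequence whose small parts have many large prime factors. -/
def T_BAD : Prop := ∀ (w T X J : ℕ) (ρ δ : ℝ), 1 ≤ T → 1 ≤ X → 1 ≤ ρ → 2 * ρ ≤ w + 1 → 0 < δ →
  ∀ KS : Finset ℕ, (∀ k ∈ KS, ∃ A : Multiset ℕ, (∀ t ∈ A, 2 ≤ t) ∧ A.prod ≤ X ∧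
    J < Om w (lo T A).prod ∧ A.prod = k + sg A) →
    (KS.card : ℝ) ≤ (T * Nat.log 2 X + 1) * X * BH T X δ * (1 / ρ) ^ J *
      exp (2 * (PS 0 w + ρ * PS w X))

/-- UPB. The parameters, bad part. -/
def T_UPB : Prop := ∃ x₀ : ℝ, 3 ≤ x₀ ∧ ∀ (x : ℝ) (w T X J : ℕ) (ρ δ : ℝ), x₀ ≤ x →
  w = ⌊log x⌋₊ → T = ⌊exp (√(log x) * log (log x))⌋₊ → X = 2 * ⌊x⌋₊ →
  J = ⌊12 * √(log x)⌋₊ → ρ = log x ^ (1 / 4 : ℝ) →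
  δ = 2 * log (log (log x)) / (√(log x) * log (log x)) →
    1 ≤ T ∧ 1 ≤ X ∧ 1 ≤ ρ ∧ 2 * ρ ≤ w ∧ 0 < δ ∧
    (T * Nat.log 2 X + 1) * X * BH T X δ * (1 / ρ) ^ J * exp (2 * (PS 0 w + ρ * PS w X)) ≤
      x * exp (-(Z x)) / 2

/-- UPG. The parameters, good part. -/
def T_UPG : Prop := ∃ C x₀ : ℝ, 1 ≤ C ∧ 3 ≤ x₀ ∧ ∀ (x : ℝ) (w T X n J : ℕ) (y v ρ δ : ℝ), x₀ ≤ x →
  w = ⌊log x⌋₊ → T = ⌊exp (√(log x) * log (log x))⌋₊ → X = 2 * ⌊x⌋₊ →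
  J = ⌊12 * √(log x)⌋₊ → n = ⌈160 * √(log x) / log (log x)⌉₊ → y = 1 / log (log x) ^ 2 →
  v = log x ^ (1 / 4 : ℝ) → ρ = 1 / 16 →
  δ = 2 * log (log (log x)) / (√(log x) * log (log x)) →
    0 < y ∧ y ≤ 1 ∧ 1 ≤ v ∧ 2 * v ≤ w ∧ 0 < δ ∧
    X * BH T X δ * BS w * BR w T n J y v ρ ≤ x * exp (C * Z x)

/-- UPP. The upper bound. -/
def T_UPP : Prop := ∃ C x₀ : ℝ, 0 < C ∧ ∀ x : ℝ, x₀ ≤ x →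
  (((Icc 2 ⌊x⌋₊).filter (fun k => exp (C * Z x) < (N k : ℝ))).card : ℝ) ≤ x * exp (-(Z x))

/-- FIN. The theorem. -/
def T_FIN : Prop := ∃ c C x₀ : ℝ, 0 < c ∧ 0 < C ∧
  (∀ x : ℝ, x₀ ≤ x →
    ({k : ℕ | 2 ≤ k ∧ (k : ℝ) ≤ x ∧
      ¬ (exp (c * Z x) ≤ (N k : ℝ) ∧ (N k : ℝ) ≤ exp (C * Z x))}.ncard : ℝ) ≤
        x * exp (-(c * Z x))) ∧
  (∀ H N₀ : ℕ, x₀ ≤ H → H ≤ N₀ →
    ({k : ℕ | N₀ ≤ k ∧ k < N₀ + H ∧ (N k : ℝ) < exp (c * Z H)}.ncard : ℝ) ≤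
      H * exp (-(c * Z H)))

end Pool.Agent.H84.NSP
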