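import Pool.Agent.H84.NSP.Targets

/-!
# MP_0cd084_nt, row VAR: the variance of the number of representations
-/

set_option autoImplicit false

open Finset Real

namespace Pool.Agent.H84.NSP

open Classical in
theorem var_abs {ι : Type*} (hCNT : T_CNT) (hCN2 : T_CN2) (I : Finset ι) (q s : ι → ℕ)
    (hq : ∀ e ∈ I, 0 < q e) (N₀ H : ℕ) :
    ∑ K ∈ Ico N₀ (N₀ + H), ((∑ e ∈ I, (if q e ∣ K + s e then (1 : ℝ) else 0)) -
      ∑ e ∈ I, (1 : ℝ) / q e) ^ 2 ≤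
    H * (∑ e ∈ I, ∑ f ∈ I, (if 1 < Nat.gcd (q e) (q f) ∧
      ((Nat.gcd (q e) (q f) : ℕ) : ℤ) ∣ (s e : ℤ) - (s f : ℤ) then
        (Nat.gcd (q e) (q f) : ℝ) / ((q e : ℝ) * q f) else 0)) + 3 * (I.card : ℝ) ^ 2 := by
  set μ : ℝ := ∑ e ∈ I, (1 : ℝ) / q e with hμ
  set n : ℝ := (I.card : ℝ) with hn
  set X : ι → ℕ → ℝ := fun e K => if q e ∣ K + s e then (1 : ℝ) else 0 with hX
  set T : ι → ι → ℝ := fun e f => if 1 < Nat.gcd (q e) (q f) ∧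
      ((Nat.gcd (q e) (q f) : ℕ) : ℤ) ∣ (s e : ℤ) - (s f : ℤ) then
        (Nat.gcd (q e) (q f) : ℝ) / ((q e : ℝ) * q f) else 0 with hT
  have hn0 : 0 ≤ n := Nat.cast_nonneg _
  have hμ0 : 0 ≤ μ := Finset.sum_nonneg fun e _ => by positivity
  have hμn : μ ≤ n := by
    rw [hμ, hn, Finset.card_eq_sum_ones]
    push_cast
    refine Finset.sum_le_sum fun e he => ?_
    have h1 : (1 : ℝ) ≤ q e := by exact_mod_cast hq e he
    rw [div_le_one (by linarith)]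
    exact h1
  -- first moment
  have h1 : ∀ e ∈ I, (H : ℝ) * (1 / q e) - 1 ≤ ∑ K ∈ Ico N₀ (N₀ + H), X e K := by
    intro e he
    have := (hCNT (q e) N₀ H (s e) (hq e he)).1
    rw [hX]
    simp only
    rw [← Finset.sum_filter, Finset.sum_const, nsmul_eq_mul, mul_one]
    rw [mul_one_div]
    exact this
  have h1' : H * μ - n ≤ ∑ K ∈ Ico N₀ (N₀ + H), ∑ e ∈ I, X e K := by
    rw [Finset.sum_comm]
    calc H * μ - n = ∑ e ∈ I, ((H : ℝ) * (1 / q e) - 1) := by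
          rw [Finset.sum_sub_distrib, ← Finset.mul_sum, Finset.sum_const, nsmul_eq_mul, mul_one]
      _ ≤ _ := Finset.sum_le_sum h1
  -- second moment
  have h2 : ∀ e ∈ I, ∀ f ∈ I, ∑ K ∈ Ico N₀ (N₀ + H), X e K * X f K ≤
      H * ((1 / (q e : ℝ)) * (1 / q f)) + H * T e f + 1 := by
    intro e he f hf
    have e1 : ∑ K ∈ Ico N₀ (N₀ + H), X e K * X f K =
        (((Ico N₀ (N₀ + H)).filter (fun K => q e ∣ K + s e ∧ q f ∣ K + s f)).card : ℝ) := by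
      rw [Finset.card_eq_sum_ones, Finset.sum_filter]
      push_cast
      refine Finset.sum_congr rfl fun K _ => ?_
      simp only [hX]
      by_cases ha : q e ∣ K + s e <;> by_cases hb : q f ∣ K + s f <;> simp [ha, hb]
    rw [e1]
    have hqe : (0 : ℝ) < q e := by exact_mod_cast hq e he
    have hqf : (0 : ℝ) < q f := by exact_mod_cast hq f hf
    have hH0 : (0 : ℝ) ≤ H := Nat.cast_nonneg _
    have hg0 : 0 < Nat.gcd (q e) (q f) := Nat.gcd_pos_of_pos_left _ (hq e he)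
    obtain ⟨c1, c2⟩ := hCN2 (q e) (q f) N₀ H (s e) (s f) (hq e he) (hq f hf)
    have hp : 0 ≤ (H : ℝ) * ((1 / (q e : ℝ)) * (1 / q f)) := by positivity
    have hTn : 0 ≤ T e f := by
      simp only [hT]
      split_ifs
      · positivity
      · exact le_rfl
    have hTn' : 0 ≤ (H : ℝ) * T e f := mul_nonneg hH0 hTn
    by_cases hc : ((Nat.gcd (q e) (q f) : ℕ) : ℤ) ∣ (s e : ℤ) - (s f : ℤ)
    · have h3 := c1 hc
      by_cases hg : 1 < Nat.gcd (q e) (q f)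
      · have h4 : T e f = (Nat.gcd (q e) (q f) : ℝ) / ((q e : ℝ) * q f) := by
          simp only [hT]
          rw [if_pos ⟨hg, hc⟩]
        rw [h4]
        linarith
      · have h5 : Nat.gcd (q e) (q f) = 1 := by omega
        have h6 : (H : ℝ) * ((Nat.gcd (q e) (q f) : ℝ) / ((q e : ℝ) * q f)) =
            H * ((1 / (q e : ℝ)) * (1 / q f)) := by
          rw [h5]
          push_cast
          rw [one_div_mul_one_div]
        rw [h6] at h3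
        linarith
    · rw [c2 hc]
      simp only [Finset.card_empty, Nat.cast_zero]
      linarith
  have h2' : ∑ K ∈ Ico N₀ (N₀ + H), (∑ e ∈ I, X e K) ^ 2 ≤
      H * μ ^ 2 + H * ∑ e ∈ I, ∑ f ∈ I, T e f + n ^ 2 := by
    calc ∑ K ∈ Ico N₀ (N₀ + H), (∑ e ∈ I, X e K) ^ 2
        = ∑ e ∈ I, ∑ f ∈ I, ∑ K ∈ Ico N₀ (N₀ + H), X e K * X f K := by
          simp_rw [sq, Finset.sum_mul_sum]
          rw [Finset.sum_comm]
          refine Finset.sum_congr rfl fun e _ => ?_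
          rw [Finset.sum_comm]
      _ ≤ ∑ e ∈ I, ∑ f ∈ I, (H * ((1 / (q e : ℝ)) * (1 / q f)) + H * T e f + 1) :=
          Finset.sum_le_sum fun e he => Finset.sum_le_sum fun f hf => h2 e he f hf
      _ = _ := by
          simp_rw [Finset.sum_add_distrib, ← Finset.mul_sum, Finset.sum_const, nsmul_eq_mul,
            mul_one]
          rw [← Finset.sum_mul, ← hμ]
          ring
  have e2 : ∑ K ∈ Ico N₀ (N₀ + H), ((∑ e ∈ I, X e K) - μ) ^ 2 =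
      ∑ K ∈ Ico N₀ (N₀ + H), (∑ e ∈ I, X e K) ^ 2 -
        2 * μ * (∑ K ∈ Ico N₀ (N₀ + H), ∑ e ∈ I, X e K) + H * μ ^ 2 := by
    rw [Finset.mul_sum, ← Finset.sum_sub_distrib]
    have : (H : ℝ) * μ ^ 2 = ∑ K ∈ Ico N₀ (N₀ + H), μ ^ 2 := by
      rw [Finset.sum_const, nsmul_eq_mul, Nat.card_Ico]
      congr 2
      omega
    rw [this, ← Finset.sum_add_distrib]
    refine Finset.sum_congr rfl fun K _ => ?_
    ring
  rw [e2]
  have h7 : 2 * μ * (H * μ - n) ≤ 2 * μ * (∑ K ∈ Ico N₀ (N₀ + H), ∑ e ∈ I, X e K) :=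
    mul_le_mul_of_nonneg_left h1' (by linarith)
  have h8 : μ * n ≤ n * n := mul_le_mul_of_nonneg_right hμn hn0
  nlinarith

theorem pf_VAR (hCNT : T_CNT) (hCN2 : T_CN2) : T_VAR := by
  classical
  intro R PP z Y N₀ H hgood hY
  set I : Finset (Σ _ : ℕ × ℕ, ℕ) := PP.sigma (fun P => BB z Y P.1) with hI
  have hmem : ∀ e ∈ I, 2 ≤ e.1.1 ∧ 1 ≤ e.2 := by
    intro e he
    rw [hI, Finset.mem_sigma] at he
    refine ⟨(hgood e.1 he.1).1, ?_⟩
    have h2 := he.2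
    unfold BB at h2
    rw [Finset.mem_filter, Finset.mem_Ico] at h2
    omega
  have hq : ∀ e ∈ I, 0 < e.1.1 * e.2 - 1 := by
    intro e he
    obtain ⟨h1, h2⟩ := hmem e he
    have : 2 * 1 ≤ e.1.1 * e.2 := Nat.mul_le_mul h1 h2
    omega
  have key := var_abs hCNT hCN2 I (fun e => e.1.1 * e.2 - 1) (fun e => e.1.2 + e.2 - 1) hq N₀ H
  have e1 : ∀ K, (RR PP z Y K : ℝ) =
      ∑ e ∈ I, (if e.1.1 * e.2 - 1 ∣ K + (e.1.2 + e.2 - 1) then (1 : ℝ) else 0) := by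
    intro K
    unfold RR
    rw [hI, Finset.sum_sigma]
    push_cast
    refine Finset.sum_congr rfl fun P hP => ?_
    rw [Finset.card_eq_sum_ones, Finset.sum_filter]
    push_cast
    refine Finset.sum_congr rfl fun b hb => ?_
    have hb1 : 1 ≤ b := by
      unfold BB at hb
      rw [Finset.mem_filter, Finset.mem_Ico] at hb
      omega
    have : K + P.2 + b - 1 = K + (P.2 + b - 1) := by omega
    rw [this]
  have e2 : mu PP z Y = ∑ e ∈ I, (1 : ℝ) / ((e.1.1 * e.2 - 1 : ℕ) : ℝ) := by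
    unfold mu
    rw [hI, Finset.sum_sigma]
  have e3 : ∑ P ∈ PP, ((BB z Y P.1).card : ℝ) = (I.card : ℝ) := by
    rw [hI, Finset.card_sigma]
    push_cast
    rfl
  have e4 : ∑ P ∈ PP, ∑ Q ∈ PP, SG z Y P Q = ∑ e ∈ I, ∑ f ∈ I,
      (if 1 < Nat.gcd (e.1.1 * e.2 - 1) (f.1.1 * f.2 - 1) ∧
        ((Nat.gcd (e.1.1 * e.2 - 1) (f.1.1 * f.2 - 1) : ℕ) : ℤ) ∣
          (((e.1.2 + e.2 - 1 : ℕ) : ℤ) - ((f.1.2 + f.2 - 1 : ℕ) : ℤ)) then
        (Nat.gcd (e.1.1 * e.2 - 1) (f.1.1 * f.2 - 1) : ℝ) /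
          (((e.1.1 * e.2 - 1 : ℕ) : ℝ) * ((f.1.1 * f.2 - 1 : ℕ) : ℝ)) else 0) := by
    have : ∀ e ∈ I, ∀ f ∈ I, ((e.1.2 + e.2 - 1 : ℕ) : ℤ) - ((f.1.2 + f.2 - 1 : ℕ) : ℤ) =
        ((e.1.2 + e.2 : ℕ) : ℤ) - ((f.1.2 + f.2 : ℕ) : ℤ) := by
      intro e he f hf
      have h1 := (hmem e he).2
      have h2 := (hmem f hf).2
      omega
    have e5 : ∑ e ∈ I, ∑ f ∈ I,
      (if 1 < Nat.gcd (e.1.1 * e.2 - 1) (f.1.1 * f.2 - 1) ∧
        ((Nat.gcd (e.1.1 * e.2 - 1) (f.1.1 * f.2 - 1) : ℕ) : ℤ) ∣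
          (((e.1.2 + e.2 - 1 : ℕ) : ℤ) - ((f.1.2 + f.2 - 1 : ℕ) : ℤ)) then
        (Nat.gcd (e.1.1 * e.2 - 1) (f.1.1 * f.2 - 1) : ℝ) /
          (((e.1.1 * e.2 - 1 : ℕ) : ℝ) * ((f.1.1 * f.2 - 1 : ℕ) : ℝ)) else 0) =
      ∑ e ∈ I, ∑ f ∈ I,
      (if 1 < Nat.gcd (e.1.1 * e.2 - 1) (f.1.1 * f.2 - 1) ∧
        ((Nat.gcd (e.1.1 * e.2 - 1) (f.1.1 * f.2 - 1) : ℕ) : ℤ) ∣
          (((e.1.2 + e.2 : ℕ) : ℤ) - ((f.1.2 + f.2 : ℕ) : ℤ)) then
        (Nat.gcd (e.1.1 * e.2 - 1) (f.1.1 * f.2 - 1) : ℝ) /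
          (((e.1.1 * e.2 - 1 : ℕ) : ℝ) * ((f.1.1 * f.2 - 1 : ℕ) : ℝ)) else 0) := by
      refine Finset.sum_congr rfl fun e he => Finset.sum_congr rfl fun f hf => ?_
      rw [this e he f hf]
    rw [e5, hI, Finset.sum_sigma]
    refine Finset.sum_congr rfl fun P _ => ?_
    unfold SG
    rw [Finset.sum_comm]
    refine Finset.sum_congr rfl fun b _ => ?_
    rw [Finset.sum_sigma]
  rw [e3, e4]
  simp_rw [e1, e2]
  exact key

end Pool.Agent.H84.NSP
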